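import Pool.Agent.Helper97.Hilb8.L.KDefs
import Pool.Agent.Helper97.Hilb8.K.A.ClAll

/-! Checks. -/

set_option linter.all false
set_option maxRecDepth 1000000
set_option maxHeartbeats 0

noncomputable section

namespace Pool.Agent.Helper97.Hilb8.K.A

theorem mchk10 : chkC (ruleU 4409779687062524041073593199833914043050744820349218621826150416149098788708419200047405529563136 8543948143683640329580086824678208458410818089426611079788166431288878903122562200091844052779008 322 M T R Y) D D10 = true := by decide +kernel

theorem mchk11 : chkC (ruleU 4409779687062524041073593199833914043050744820349218621826150416149098788708419200047405529563136 8543948143683640329580086824678208458410818089426611079788166431288878903122562200091844052779008 322 M T R Y) D D11 = true := by decide +kernel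

theorem mchk12 : chkC (ruleU 4409779687062524041073593199833914043050744820349218621826150416149098788708419200047405529563136 8543948143683640329580086824678208458410818089426611079788166431288878903122562200091844052779008 322 M T R Y) D D12 = true := by decide +kernel

theorem mchk13 : chkC (ruleU 4409779687062524041073593199833914043050744820349218621826150416149098788708419200047405529563136 8543948143683640329580086824678208458410818089426611079788166431288878903122562200091844052779008 322 M T R Y) D D13 = true := by decide +kernel

theorem mchk14 : chkC (ruleU 4409779687062524041073593199833914043050744820349218621826150416149098788708419200047405529563136 8543948143683640329580086824678208458410818089426611079788166431288878903122562200091844052779008 322 M T R Y) D D14 = true := by decide +kernel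

theorem mchk15 : chkC (ruleU 4409779687062524041073593199833914043050744820349218621826150416149098788708419200047405529563136 8543948143683640329580086824678208458410818089426611079788166431288878903122562200091844052779008 322 M T R Y) D D15 = true := by decide +kernel

theorem mchk16 : chkC (ruleU 4409779687062524041073593199833914043050744820349218621826150416149098788708419200047405529563136 8543948143683640329580086824678208458410818089426611079788166431288878903122562200091844052779008 322 M T R Y) D D16 = true := by decide +kernel

theorem mchk17 : chkC (ruleU 4409779687062524041073593199833914043050744820349218621826150416149098788708419200047405529563136 8543948143683640329580086824678208458410818089426611079788166431288878903122562200091844052779008 322 M T R Y) D D17 = true := by decide +kernel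

theorem mchk18 : chkC (ruleU 4409779687062524041073593199833914043050744820349218621826150416149098788708419200047405529563136 8543948143683640329580086824678208458410818089426611079788166431288878903122562200091844052779008 322 M T R Y) D D18 = true := by decide +kernel

end Pool.Agent.Helper97.Hilb8.K.A
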