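import Pool.Agent.Helper97.Hilb8.L.KDefs
import Pool.Agent.Helper97.Hilb8.K.A.DerChk
import Pool.Agent.Helper97.Hilb8.L.A.CertTab
import Pool.Agent.Helper97.Hilb8.L.A.DerTab

/-! Checks. -/

set_option linter.all false
set_option maxRecDepth 1000000
set_option maxHeartbeats 0

noncomputable section

namespace Pool.Agent.Helper97.Hilb8.K.A

/-- Generators with `f`. -/
def mE2 : Tr := .node mE 9999 0 f0k .leaf

theorem md1 : goodT 4409779687062524041073593199833914043050744820349218621826150416149098788708419200047405529563136 90 mD1 = true := by decide +kernel

theorem md2 : chkJ2 4409779687062524041073593199833914043050744820349218621826150416149098788708419200047405529563136 mE mD1 mJ1 0 = true := by decide +kernel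

theorem md3 : goodT 4409779687062524041073593199833914043050744820349218621826150416149098788708419200047405529563136 213 mD2 = true := by decide +kernel

theorem md4 : chkJ2 4409779687062524041073593199833914043050744820349218621826150416149098788708419200047405529563136 mE2 mD2 mJ2 0 = true := by decide +kernel

theorem md5 : chkT2 4409779687062524041073593199833914043050744820349218621826150416149098788708419200047405529563136 mD2 213 T mT2 0 = true := by decide +kernel

theorem ma1 : chkA2 4409779687062524041073593199833914043050744820349218621826150416149098788708419200047405529563136 VP JV V0 io f0k mD1 90 mT1 0 = true := by decide +kernel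

end Pool.Agent.Helper97.Hilb8.K.A
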