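import Pool.Agent.Helper97.Hilb8.L.KDefs
import Pool.Agent.Helper97.Hilb8.K.A.Tab
import Pool.Agent.Helper97.Hilb8.K.A.RelTab

/-! Checks. -/

set_option linter.all false
set_option maxRecDepth 1000000
set_option maxHeartbeats 0

noncomputable section

namespace Pool.Agent.Helper97.Hilb8.K.A

theorem mt6 : elimsU 58 8543948143683640329580086824678208458410818089426611079788166431288878903122562200091844052779008 8268336913242232577012987249688588830720146538154784915924032030279560228828286000088881341399040 322 32 R Y = true := by decide +kernel

end Pool.Agent.Helper97.Hilb8.K.A
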