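import Pool.Agent.Helper97.Hilb8.L.KDefs
import Pool.Agent.Helper97.Hilb8.K.A.RawTab
import Pool.Agent.Helper97.Hilb8.K.A.ComTab
import Pool.Agent.Helper97.Hilb8.K.A.PtsTab
import Pool.Agent.Helper97.Hilb8.K.A.CertTab
import Pool.Agent.Helper97.Hilb8.L.A.CertTab

/-! Checks. -/

set_option linter.all false
set_option maxRecDepth 1000000
set_option maxHeartbeats 0

noncomputable section

namespace Pool.Agent.Helper97.Hilb8.K.A

theorem mc9 : chkVU 10113823609099029547247175022248546280303962389929013597385115975465951724008361797397495347218337465153553733626062288809244540910920412046539811877765734061032002339686971707097299171809847734119170048 19595533242629369747791401605606558418088927130487463844933662202465281465266200982457647235235528838735010358900495684567911298014908298340170885513171109743249504533143507682501017145381579980695142400 672 wr CT 4409779687062524041073593199833914043050744820349218621826150416149098788708419200047405529563136 VP ve (maskI io) = true := by decide +kernel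

theorem mc10 : goodT 4409779687062524041073593199833914043050744820349218621826150416149098788708419200047405529563136 107 mE = true := by decide +kernel

theorem mr0 : chkR2 10113823609099029547247175022248546280303962389929013597385115975465951724008361797397495347218337465153553733626062288809244540910920412046539811877765734061032002339686971707097299171809847734119170048 672 wr CT 4409779687062524041073593199833914043050744820349218621826150416149098788708419200047405529563136 VP mE RL0 0 = true := by decide +kernel

theorem mr1 : chkR2 10113823609099029547247175022248546280303962389929013597385115975465951724008361797397495347218337465153553733626062288809244540910920412046539811877765734061032002339686971707097299171809847734119170048 672 wr CT 4409779687062524041073593199833914043050744820349218621826150416149098788708419200047405529563136 VP mE RL1 73 = true := by decide +kernel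

theorem mr2 : chkR2 10113823609099029547247175022248546280303962389929013597385115975465951724008361797397495347218337465153553733626062288809244540910920412046539811877765734061032002339686971707097299171809847734119170048 672 wr CT 4409779687062524041073593199833914043050744820349218621826150416149098788708419200047405529563136 VP mE RL2 93 = true := by decide +kernel

theorem mr3 : chkR2 10113823609099029547247175022248546280303962389929013597385115975465951724008361797397495347218337465153553733626062288809244540910920412046539811877765734061032002339686971707097299171809847734119170048 672 wr CT 4409779687062524041073593199833914043050744820349218621826150416149098788708419200047405529563136 VP mE RL3 102 = true := by decide +kernel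

theorem mr4 : chkR2 10113823609099029547247175022248546280303962389929013597385115975465951724008361797397495347218337465153553733626062288809244540910920412046539811877765734061032002339686971707097299171809847734119170048 672 wr CT 4409779687062524041073593199833914043050744820349218621826150416149098788708419200047405529563136 VP mE mRL 106 = true := by decide +kernel

end Pool.Agent.Helper97.Hilb8.K.A
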