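import Pool.Agent.Helper97.Hilb8.L.KDefs
import Pool.Agent.Helper97.Hilb8.K.A.ThTab
import Pool.Agent.Helper97.Hilb8.K.A.RawTab
import Pool.Agent.Helper97.Hilb8.K.A.PtsTab

/-! Checks. -/

set_option linter.all false
set_option maxRecDepth 1000000
set_option maxHeartbeats 0

noncomputable section

namespace Pool.Agent.Helper97.Hilb8.K.A

theorem mh8 : sP 94290428214896962464753860175244065784184438784 V0 (fun a => sumMU 182687704666362864775460604089535377452696600576 maskD a 0 0) f0 .z = true := by decide +kernel

end Pool.Agent.Helper97.Hilb8.K.A
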