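import Pool.Agent.Helper97.Hilb8.L.OKDefs
import Pool.Agent.Helper97.Hilb8.K.A.OK
import Pool.Agent.Helper97.Hilb8.L.A.RawChk
import Pool.Agent.Helper97.Hilb8.L.A.DerChk
import Pool.Agent.Helper97.Hilb8.L.A.ThChk
import Pool.Agent.Helper97.Hilb8.L.A.ElChk
import Pool.Agent.Helper97.Hilb8.L.A.Chk0
import Pool.Agent.Helper97.Hilb8.L.A.Chk1

/-! Data and checks of the chart in characteristic 2. -/

set_option linter.all false
set_option maxRecDepth 1000000
set_option maxHeartbeats 0

noncomputable section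

namespace Pool.Agent.Helper97.Hilb8.K.A

/-- The data for characteristic 2. -/
def data2 : Data2 where
  NE := 107
  gE := mE
  ND := 90
  gD := mD1
  ND2 := 213
  D2 := mD2
  tA := mT1

theorem mlenR : mRL.len = 1 := by decide +kernel

theorem mlenJ1 : mJ1.len = 90 := by decide +kernel

theorem mlenJ2 : mJ2.len = 213 := by decide +kernel

theorem mlenT2 : mT2.len = 206 := by decide +kernel

theorem mhtA : mT1.len = C.n := by decide +kernel

theorem mhR : ∀ i < data2.NE, ∃ l i0, i0 ≤ i ∧ i < i0 + l.len ∧ chkR2 data.G data.sh data.wr data.cT data.cK.G data.VP data2.gE l i0 = true := by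
  intro i hi
  have hi' : i < 107 := hi
  by_cases h0 : i < 73
  · exact ⟨RL0, 0, by omega, by rw [lenR0]; omega, mr0⟩
  by_cases h1 : i < 93
  · exact ⟨RL1, 73, by omega, by rw [lenR1]; omega, mr1⟩
  by_cases h2 : i < 102
  · exact ⟨RL2, 93, by omega, by rw [lenR2]; omega, mr2⟩
  by_cases h3 : i < 106
  · exact ⟨RL3, 102, by omega, by rw [lenR3]; omega, mr3⟩
  exact ⟨mRL, 106, by omega, by rw [mlenR]; omega, mr4⟩

theorem mhJ : ∀ i < data2.ND, ∃ l i0, i0 ≤ i ∧ i < i0 + l.len ∧ chkJ2 data.cK.G data2.gE data2.gD l i0 = true := by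
  intro i hi
  have hi' : i < 90 := hi
  exact ⟨mJ1, 0, by omega, by rw [mlenJ1]; omega, md2⟩

theorem mhJ2 : ∀ i < data2.ND2, ∃ l i0, i0 ≤ i ∧ i < i0 + l.len ∧ chkJ2 data.cK.G (data2.E2 data) data2.D2 l i0 = true := by
  intro i hi
  have hi' : i < 213 := hi
  exact ⟨mJ2, 0, by omega, by rw [mlenJ2]; omega, md4⟩

theorem mhT2 : ∀ i < data.N, ∃ l i0, i0 ≤ i ∧ i < i0 + l.len ∧
    chkT2 data.cK.G data2.D2 data2.ND2 data.tT l i0 = true := by
  intro i hi
  have hi' : i < 206 := hi
  exact ⟨mT2, 0, by omega, by rw [mlenT2]; omega, md5⟩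

theorem mnn584 : nodeOK (ruleU data.cK.G data.cK.LOW data.cK.sh data.tM data.tT data.tR data.tY) data.DC 584 (.c 244 (.c 276 (.c 1389 .e))) (.rul 0 0 0) = true := by decide +kernel

theorem mnn1168 : nodeOK (ruleU data.cK.G data.cK.LOW data.cK.sh data.tM data.tT data.tR data.tY) data.DC 1168 (.c 218 (.c 2271 .e)) (.rul 2 0 0) = true := by decide +kernel

theorem mnn1752 : nodeOK (ruleU data.cK.G data.cK.LOW data.cK.sh data.tM data.tT data.tR data.tY) data.DC 1752 (.c 111 (.c 283 .e)) (.rul 3 113 0) = true := by decide +kernel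

theorem mnn2336 : nodeOK (ruleU data.cK.G data.cK.LOW data.cK.sh data.tM data.tT data.tR data.tY) data.DC 2336 (.c 79 (.c 219 (.c 225 (.c 247 (.c 259 .e))))) (.rul 5 135 0) = true := by decide +kernel

theorem mnn2628 : nodeOK (ruleU data.cK.G data.cK.LOW data.cK.sh data.tM data.tT data.tR data.tY) data.DC 2628 (.c 254 (.c 2678 (.c 2626 (.c 722 (.c 601 (.c 2674 (.c 2682 (.c 146 (.c 258 (.c 613 (.c 609 (.c 2606 (.c 202 (.c 685 (.c 246 .e))))))))))))))) (.rup 22743612) = true := by decide +kernel

theorem mnn2774 : nodeOK (ruleU data.cK.G data.cK.LOW data.cK.sh data.tM data.tT data.tR data.tY) data.DC 2774 (.c 178 (.c 2562 (.c 245 (.c 269 (.c 145 (.c 169 (.c 153 (.c 137 (.c 141 (.c 185 (.c 170 (.c 246 (.c 281 (.c 66 .e)))))))))))))) (.rup 136159578145972070074744676612805738864081976565495296937065691463198122012472258354791973961086987013844445971327424982944337926959390527093001355925265150224992858464735034426108593934352937129727708193280063617987411353157842126868931566222097853443349171851546338997188476786095855016087615016383901765905761120928126885761153004304624713902788819249475676167184983175170295623120911143346222281416441828804860963803176866604308074316919889741839415622904518915568769282403388602849150788955968449861077530)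 = true := by decide +kernel

theorem mnn2920 : nodeOK (ruleU data.cK.G data.cK.LOW data.cK.sh data.tM data.tT data.tR data.tY) data.DC 2920 (.c 445 (.c 248 .e)) (.rup 1231362) = true := by decide +kernel

theorem mnn3066 : nodeOK (ruleU data.cK.G data.cK.LOW data.cK.sh data.tM data.tT data.tR data.tY) data.DC 3066 (.c 70 (.c 1637 (.c 1641 (.c 254 (.c 146 (.c 693 (.c 722 (.c 2206 (.c 2190 (.c 2850 (.c 2990 (.c 2846 (.c 2882 (.c 2870 (.c 689 (.c 697 (.c 186 (.c 250 (.c 238 (.c 1114 (.c 1078 (.c 2986 (.c 962 (.c 2998 (.c 2830 (.c 2834 (.c 2858 (.c 2826 (.c 2842 (.c 2838 (.c 2854 (.c 155 (.c 266 (.c 278 (.c 139 (.c 171 (.c 354 (.c 282 .e)))))))))))))))))))))))))))))))))))))) (.rup 1975592398298907637913058582943059763964290505501494754323576038216551384282921586016046609486015736418390322928052002989375888955871112314688177980049970407467899433753762808136797) = true := by decide +kernel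

theorem mnn3212 : nodeOK (ruleU data.cK.G data.cK.LOW data.cK.sh data.tM data.tT data.tR data.tY) data.DC 3212 (.c 186 (.c 259 (.c 247 (.c 223 (.c 153 (.c 184 (.c 244 (.c 141 (.c 137 (.c 68 (.c 154 (.c 280 (.c 256 .e))))))))))))) (.rup 3885819144094778881899087636261635544351677981166442754950107682871460786411196218558567095827366924250969292927475942297612914144302666455362722243975248621070656046989733917611479460802729598453587929195179527491556602883677212743237773576352685653690155890266483422579576170923140002151381674957283804644823264596501974477354480140105524541422679689064149434398479237055203817) = true := by decide +kernel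

theorem mnn3358 : nodeOK (ruleU data.cK.G data.cK.LOW data.cK.sh data.tM data.tT data.tR data.tY) data.DC 3358 (.c 75 (.c 138 (.c 98 (.c 278 (.c 270 (.c 198 (.c 142 (.c 78 (.c 2218 (.c 72 .e)))))))))) (.rup 17420496359002975096426956534513992818) = true := by decide +kernel

theorem mnn3504 : nodeOK (ruleU data.cK.G data.cK.LOW data.cK.sh data.tM data.tT data.tR data.tY) data.DC 3504 (.c 93 (.c 222 (.c 119 (.c 2894 (.c 2670 (.c 2890 (.c 271 .e))))))) (.rup 149030145858010549639) = true := by decide +kernel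

theorem mnn3650 : nodeOK (ruleU data.cK.G data.cK.LOW data.cK.sh data.tM data.tT data.tR data.tY) data.DC 3650 (.c 210 (.c 139 (.c 2166 (.c 2150 (.c 226 (.c 266 (.c 202 (.c 2342 (.c 250 (.c 142 (.c 2374 (.c 90 (.c 77 (.c 74 (.c 70 .e))))))))))))))) (.rup 5981204485224980015377596926796606635815828384130093365085535496038268200812340326534795036178707846771805852118990885511614286926278592761519396457972) = true := by decide +kernel

theorem mnn3796 : nodeOK (ruleU data.cK.G data.cK.LOW data.cK.sh data.tM data.tT data.tR data.tY) data.DC 3796 (.c 140 (.c 213 (.c 142 (.c 97 (.c 187 (.c 224 (.c 250 (.c 258 (.c 89 (.c 77 (.c 73 (.c 69 (.c 66 .e))))))))))))) (.rup 2004912669566208214783633323628338772249547734732954838545370165396947923260581054043434905360824407834546532095802639869023515256260378569924946797366823035464315676522372444946015941981093421399248053525995507515437214251216661086009223607362087697642582216879930894994934) = true := by decide +kernel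

theorem mnn3942 : nodeOK (ruleU data.cK.G data.cK.LOW data.cK.sh data.tM data.tT data.tR data.tY) data.DC 3942 (.c 223 (.c 278 (.c 138 (.c 3086 (.c 2166 (.c 250 (.c 186 (.c 259 (.c 2218 (.c 1254 (.c 2350 (.c 77 (.c 74 .e))))))))))))) (.rup 632142274043882439136607480201508616589085926859980460625670080438075592179) = true := by decide +kernel

theorem mnn4088 : nodeOK (ruleU data.cK.G data.cK.LOW data.cK.sh data.tM data.tT data.tR data.tY) data.DC 4088 (.c 202 (.c 225 (.c 146 (.c 278 (.c 259 (.c 138 (.c 214 (.c 226 (.c 860 (.c 186 (.c 142 (.c 250 (.c 77 (.c 73 (.c 69 (.c 66 .e)))))))))))))))) (.rup 243175995747587871381341076875724879087670390277502216399780706073639834783178488783756088668114216636715964141381401334968597015417228511980055736931463147232528790168089565480213510583665947553566251588548915733630168898500901165969483857018851293680357238399944625393318847312559472072016507147556250789808863821850548397264652423122882642557856212319144212765310597619575848713900310951053061536686530247101018033728791508677403169625168748103489638161818110913899286278111535573701638821097526232950060879347)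 = true := by decide +kernel

theorem mnn4234 : nodeOK (ruleU data.cK.G data.cK.LOW data.cK.sh data.tM data.tT data.tR data.tY) data.DC 4234 (.c 258 (.c 214 (.c 224 (.c 96 (.c 186 (.c 142 (.c 2562 (.c 2586 (.c 2970 (.c 251 (.c 873 (.c 69 (.c 65 .e))))))))))))) (.rup 94452078980164228833832951811555337565497759206313) = true := by decide +kernel

theorem mnn4380 : nodeOK (ruleU data.cK.G data.cK.LOW data.cK.sh data.tM data.tT data.tR data.tY) data.DC 4380 (.c 2142 (.c 2914 (.c 2946 (.c 2166 (.c 106 (.c 2942 (.c 178 (.c 2150 (.c 2910 (.c 2146 (.c 2162 (.c 226 (.c 2926 (.c 2898 (.c 2906 (.c 2922 (.c 2938 (.c 2902 (.c 2918 .e))))))))))))))))))) (.rup 8555165279800843) = true := by decide +kernel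

theorem mnn4526 : nodeOK (ruleU data.cK.G data.cK.LOW data.cK.sh data.tM data.tT data.tR data.tY) data.DC 4526 (.c 152 (.c 256 (.c 76 (.c 73 (.c 65 .e))))) (.rup 401703950454779731636612675023647740792559547428539428500836583984491314071095218981563993216078672604212566829333359153772880743969123009897168392387239788787) = true := by decide +kernel

theorem mhDC : chkC (ruleU data.cK.G data.cK.LOW data.cK.sh data.tM data.tT data.tR data.tY) D D = true :=
  ((chkC_node _ _ _ _ _ _ _).2 ⟨((chkC_node _ _ _ _ _ _ _).2 ⟨((chkC_node _ _ _ _ _ _ _).2 ⟨mchk0, mchk1, nl584, mnn584⟩), ((chkC_node _ _ _ _ _ _ _).2 ⟨mchk2, mchk3, nl1752, mnn1752⟩), nl1168, mnn1168⟩), ((chkC_node _ _ _ _ _ _ _).2 ⟨((chkC_node _ _ _ _ _ _ _).2 ⟨((chkC_node _ _ _ _ _ _ _).2 ⟨mchk4, ((chkC_node _ _ _ _ _ _ _).2 ⟨mchk5, mchk6, nl2774, mnn2774⟩), nl2628, mnn2628⟩), ((chkC_node _ _ _ _ _ _ _).2 ⟨((chkC_node _ _ _ _ _ _ _).2 ⟨mchk7, mchk8, nl3066, mnn3066⟩), ((chkC_node _ _ _ _ _ _ _).2 ⟨mchk9, mchk10, nl3358, mnn3358⟩), nl3212, mnn3212⟩),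 nl2920, mnn2920⟩), ((chkC_node _ _ _ _ _ _ _).2 ⟨((chkC_node _ _ _ _ _ _ _).2 ⟨((chkC_node _ _ _ _ _ _ _).2 ⟨mchk11, mchk12, nl3650, mnn3650⟩), ((chkC_node _ _ _ _ _ _ _).2 ⟨mchk13, mchk14, nl3942, mnn3942⟩), nl3796, mnn3796⟩), ((chkC_node _ _ _ _ _ _ _).2 ⟨((chkC_node _ _ _ _ _ _ _).2 ⟨mchk15, mchk16, nl4234, mnn4234⟩), ((chkC_node _ _ _ _ _ _ _).2 ⟨mchk17, mchk18, nl4526, mnn4526⟩), nl4380, mnn4380⟩), nl4088, mnn4088⟩), nl3504, mnn3504⟩), nl2336, mnn2336⟩)

/-- The checks of the chart. -/
theorem ok2 : data.OK2 data2 chartA where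
  hC := ok.hC
  hNX := ok.hNX
  hV := ok.hV
  hV' := ok.hV'
  hCT := ok.hCT
  hAll := ok.hAll
  hwr := ok.hwr
  hwT := ok.hwT
  hC' := ok.hC'
  hVP := ok.hVP
  hVg := ok.hVg
  hio := ok.hio
  hlen := ok.hlen
  hdist := ok.hdist
  hve := mc9
  hE := mc10
  hR := mhR
  hD := md1
  hJ := mhJ
  hf := ok.hf
  hf0 := ok.hf0
  hf0k := ok.hf0k
  hxi := ok.hxi
  hxk := ok.hxk
  hfc := ok.hfc
  hD2 := md3
  hJ2 := mhJ2
  hT2 := mhT2
  hwk := ok.hwk
  hT := ok.hT
  hN := ok.hN
  hrows := ok.hrows
  hM := ok.hM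
  hRel := ok.hRel
  hY := mt6
  hDC := mhDC
  hlast := ok.hlast
  hCD := ok.hCD
  hwD := ok.hwD
  hVT := ok.hVT
  hVTg := ok.hVTg
  hV0 := ok.hV0
  hV0g := ok.hV0g
  hz := ok.hz
  htV := ok.htV
  hmD := ok.hmD
  hs := mh8
  hjv := ok.hjv
  hjb := ok.hjb
  hJVp := ok.hJVp
  hJVg := ok.hJVg
  htA := mhtA
  hA := ma1
  hMO := ok.hMO
  hp1 := ok.hp1
  hp2 := ok.hp2
  hp3 := ok.hp3
  hp4 := ok.hp4
  hp5 := ok.hp5
  hp6 := ok.hp6
  hp7 := ok.hp7

end Pool.Agent.Helper97.Hilb8.K.A
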